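import Pool.Agent.H648.Q.Defs

/-! # Q648, task ANG (helper287, for helper648): small angle implies small determinant -/

set_option autoImplicit false
set_option linter.all false

namespace Pool.Agent.H287.Q648

open Finset Filter
open Pool.Agent.H376R2.MR
open Pool.Agent.W78.GA
open Pool.Agent.W803.GA
open Pool.Agent.H648.Q

lemma ang_gen {t c : ℤ} (hD : t ^ 2 < 4 * c) {z w : Qd t c} (hz : z ≠ 0) (hw : w ≠ 0) {δ : ℝ}
    (hδ : δ ≤ 1 / 2) (h : |rd (ang z - ang w)| ≤ δ) :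
    |(dt z w : ℝ)| ≤ 2 * (Real.sqrt (nm z) * Real.sqrt (nm w)) * δ ∧
      0 < 2 * ip z w + t * dt z w := by
  obtain ⟨j, hj⟩ := rd_eq (ang z - ang w)
  set τ := rd (ang z - ang w) with hτ
  have e : ang w - ang z = -τ + 2 * Real.pi * j := by rw [hj]; ring
  have nz : 0 < ‖tc z‖ := norm_pos_iff.2 (tc_ne_zero hD hz)
  have nw : 0 < ‖tc w‖ := norm_pos_iff.2 (tc_ne_zero hD hw)
  have h1 := dt_eq_sin hD z w
  have h2 := ip_eq_cos hD z w
  rw [e, sin_add_two_pi_mul, Real.sin_neg] at h1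
  rw [e, cos_add_two_pi_mul, Real.cos_neg] at h2
  have hq := sqrt_disc hD
  set q := Real.sqrt (4 * (c : ℝ) - (t : ℝ) ^ 2) with hqd
  rw [← norm_tc hD, ← norm_tc hD]
  constructor
  · have h3 : |(dt z w : ℝ) * q / 2| = ‖tc z‖ * ‖tc w‖ * |Real.sin τ| := by
      rw [h1, abs_mul, abs_neg, abs_of_pos (mul_pos nz nw)]
    rw [abs_div, abs_mul, abs_of_nonneg (by linarith : (0 : ℝ) ≤ q), abs_two] at h3
    have h4 : |Real.sin τ| ≤ |τ| := Real.abs_sin_le_abs
    have h5 : |(dt z w : ℝ)| ≤ |(dt z w : ℝ)| * q := le_mul_of_one_le_right (abs_nonneg _) hq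
    have h6 : ‖tc z‖ * ‖tc w‖ * |Real.sin τ| ≤ ‖tc z‖ * ‖tc w‖ * δ :=
      mul_le_mul_of_nonneg_left (h4.trans h) (mul_pos nz nw).le
    linarith
  · have h7 : 1 - τ ^ 2 / 2 ≤ Real.cos τ := Real.one_sub_sq_div_two_le_cos
    have h9 : τ ^ 2 ≤ 1 := by
      rw [← sq_abs]
      have := abs_nonneg τ
      nlinarith
    have h10 : 0 < Real.cos τ := by linarith
    have h11 := mul_pos (mul_pos nz nw) h10
    have h12 : (0 : ℝ) < ((2 * ip z w + t * dt z w : ℤ) : ℝ) := by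
      push_cast
      linarith
    exact_mod_cast h12

theorem ang_of {g : ℕ → ℤ} {b m : ℤ} (hD : b ^ 2 < 4 * m) : S_ANG g b m := by
  classical
  intro L e hL u B X δ hX hδ0 hδ hu hB
  have hL0 : (0 : ℤ) < L := by exact_mod_cast hL
  have hD' : (b * L) ^ 2 < 4 * (m * L ^ 2) := by
    have h2 : (0 : ℤ) < (L : ℤ) ^ 2 := by positivity
    nlinarith
  intro p hp
  unfold AP at hp
  rw [mem_filter, mem_product] at hp
  obtain ⟨⟨hp1, hp2⟩, hg, hr⟩ := hp
  have k1 := hp1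
  have k2 := hp2
  unfold UU at k1 k2
  rw [mem_filter, mem_pball hD'] at k1 k2
  have n1 := prim_ne_zero k1.1.1
  have n2 := prim_ne_zero k2.1.1
  have n3 := mul_ne_zero' hD' hu n2
  obtain ⟨h1, h2⟩ := ang_gen hD' n1 n3 hδ hr
  unfold NPr
  rw [mem_filter, mem_product]
  refine ⟨⟨hp1, hp2⟩, hg, ?_, h2⟩
  have h3 : Real.sqrt (nm p.1) * Real.sqrt (nm (u * p.2)) ≤ X * Real.sqrt (nm u) := by
    rw [nm_mul]
    push_cast
    rw [Real.sqrt_mul (Nat.cast_nonneg _)]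
    have a1 : Real.sqrt (nm p.1) ≤ Real.sqrt X := Real.sqrt_le_sqrt k1.1.2
    have a2 : Real.sqrt (nm p.2) ≤ Real.sqrt X := Real.sqrt_le_sqrt k2.1.2
    have a3 := Real.mul_self_sqrt (by linarith : (0 : ℝ) ≤ X)
    calc Real.sqrt (nm p.1) * (Real.sqrt (nm u) * Real.sqrt (nm p.2))
        = Real.sqrt (nm p.1) * Real.sqrt (nm p.2) * Real.sqrt (nm u) := by ring
      _ ≤ Real.sqrt X * Real.sqrt X * Real.sqrt (nm u) := by
          apply mul_le_mul_of_nonneg_right _ (Real.sqrt_nonneg _)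
          exact mul_le_mul a1 a2 (Real.sqrt_nonneg _) (Real.sqrt_nonneg _)
      _ = X * Real.sqrt (nm u) := by rw [a3]
  have h4 : |(dt p.1 (u * p.2) : ℝ)| ≤ B := by
    refine h1.trans (le_trans ?_ hB)
    calc 2 * (Real.sqrt (nm p.1) * Real.sqrt (nm (u * p.2))) * δ
        ≤ 2 * (X * Real.sqrt (nm u)) * δ := by
          apply mul_le_mul_of_nonneg_right _ hδ0
          linarith
      _ = 2 * X * Real.sqrt (nm u) * δ := by ring
  exact_mod_cast h4

end Pool.Agent.H287.Q648
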