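import Pool.Agent.H648.Q.Defs2

/-! # Q648, task ANGR (helper287, for helper648): small angle implies small determinant, real case -/

set_option autoImplicit false
set_option linter.all false

namespace Pool.Agent.H287.Q648.AR

open Finset Filter
open Pool.Agent.W78.GA (Qd nm prim dt ip)
open Pool.Agent.W78.GS (Pm)
open Pool.Agent.W78.GR
open Pool.Agent.W803.GA (rd rd_eq)
open Pool.Agent.H648.Q2

variable {t c : ℤ} {η : (Qd t c)ˣ}

lemma sinh_le (y : ℝ) : |Real.sinh y| ≤ |y| * Real.exp |y| := by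
  have key : ∀ x : ℝ, 0 ≤ x → Real.sinh x ≤ x * Real.exp x := by
    intro x hx
    rw [Real.sinh_eq]
    have h1 : 1 - x ≤ Real.exp (-x) := by
      have := Real.add_one_le_exp (-x)
      linarith
    have h2 : 1 ≤ Real.exp x := Real.one_le_exp hx
    have h3 : Real.exp x * Real.exp (-x) = 1 := by
      rw [← Real.exp_add, add_neg_cancel, Real.exp_zero]
    have h4 : Real.exp x * (1 - x) ≤ Real.exp x * Real.exp (-x) :=
      mul_le_mul_of_nonneg_left h1 (Real.exp_pos x).le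
    rw [h3] at h4
    have h5 : x * 1 ≤ x * Real.exp x := mul_le_mul_of_nonneg_left h2 hx
    linarith
  rcases le_total 0 y with h | h
  · rw [abs_of_nonneg h, abs_of_nonneg (Real.sinh_nonneg_iff.2 h)]
    exact key y h
  · rw [abs_of_nonpos h, abs_of_nonpos (Real.sinh_nonpos_iff.2 h), ← Real.sinh_neg]
    exact key (-y) (by linarith)

lemma chi_re {A : ℕ} {χ : ℤ → ℤ} (hχ : IsChi A χ) (hc : (A : ℤ) ∣ c) (x y : Qd t c) :
    χ (x * y).re = χ x.re * χ y.re := by
  rw [← hχ.mul]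
  apply hχ.per
  rw [QuadraticAlgebra.re_mul]
  obtain ⟨k, hk⟩ := hc
  exact ⟨-(k * x.im * y.im), by linear_combination (-(x.im * y.im)) * hk⟩

lemma chi_one {A : ℕ} {χ : ℤ → ℤ} (hχ : IsChi A χ) : χ 1 = 1 := by
  have h1 := hχ.mul 1 1
  rcases hχ.val 1 (by simp) with h | h
  · exact h
  · rw [mul_one, h] at h1
    norm_num at h1

lemma chi_zpow {A : ℕ} {χ : ℤ → ℤ} (hχ : IsChi A χ) (hc : (A : ℤ) ∣ c)
    (hη : (A : ℤ) ∣ (η : Qd t c).re - 1) (j : ℤ) :
    χ ((η ^ j : (Qd t c)ˣ) : Qd t c).re = 1 := by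
  have h1 : χ (η : Qd t c).re = 1 := by
    rw [hχ.per _ 1 hη]
    exact chi_one hχ
  have h0 : χ (1 : Qd t c).re = 1 := by
    rw [QuadraticAlgebra.re_one]
    exact chi_one hχ
  have h2 : χ ((η⁻¹ : (Qd t c)ˣ) : Qd t c).re = 1 := by
    have h3 := chi_re hχ hc (η : Qd t c) ((η⁻¹ : (Qd t c)ˣ) : Qd t c)
    rw [← Units.val_mul, mul_inv_cancel, Units.val_one, h0, h1, one_mul] at h3
    exact h3.symm
  induction j with
  | zero => simpa using h0
  | succ n ih =>
    rw [zpow_add_one, Units.val_mul, chi_re hχ hc, ih, h1, one_mul]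
  | pred n ih =>
    rw [zpow_sub_one, Units.val_mul, chi_re hχ hc, ih, h2, one_mul]

theorem angr {g : ℕ → ℤ} {A : ℕ} {χ : ℤ → ℤ} (hg : Pm g) (U : Un t c η) (hc : (A : ℤ) ∣ c)
    (hχ : IsChi A χ) (hη : (A : ℤ) ∣ (η : Qd t c).re - 1) : S_ANGR g A χ η := by
  classical
  intro u hu
  have hpi := Real.pi_gt_three
  have hR := U.rg_pos
  obtain ⟨a, ha⟩ : ∃ a : ℝ, a = rg η / (2 * Real.pi) := ⟨_, rfl⟩
  have ha0 : 0 < a := by rw [ha]; positivity
  have hnu := nm_posR U.disc hu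
  refine ⟨2 * a * Real.exp (a / 2) * Real.sqrt (nm u), ⌈|ang η u| / (2 * Real.pi)⌉ + 3,
    by positivity, ?_⟩
  intro B X δ hX hδ0 hδ hB p hp
  unfold APR at hp
  rw [mem_filter, mem_product] at hp
  obtain ⟨⟨hp1, hp2⟩, hgne, hchi, hr⟩ := hp
  have k1 := hp1
  have k2 := hp2
  unfold R.UR at k1 k2
  rw [mem_filter, U.mem_pball] at k1 k2
  have t1 := k1.1.1.1
  have t2 := k2.1.1.1
  have tw := tp_mul U.disc hu t2
  obtain ⟨m, hm⟩ := rd_eq (ang η p.1 - ang η (u * p.2))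
  have hang := U.ang_zpow_mul (-m) tw
  have haw := ang_mul (η := η) U.disc hu t2
  have hrd : ang η (((η ^ (-m) : (Qd t c)ˣ) : Qd t c) * (u * p.2)) - ang η p.1 =
      -(rd (ang η p.1 - ang η (u * p.2))) := by
    rw [hm, hang]; push_cast; ring
  rw [mem_biUnion]
  refine ⟨-m, ?_, ?_⟩
  · have e1 := k1.1.1.2
    have e2 := k2.1.1.2
    have hr2 := abs_le.1 hr
    have hu2 := abs_le.1 (le_refl |ang η u|)
    have hc1 : |ang η u| / (2 * Real.pi) ≤ ⌈|ang η u| / (2 * Real.pi)⌉ := Int.le_ceil _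
    rw [div_le_iff₀ (by positivity)] at hc1
    rw [haw] at hm hr2
    rw [hm] at hr2
    set q := ⌈|ang η u| / (2 * Real.pi)⌉
    have b1 : (2 * Real.pi) * m ≤ (2 * Real.pi) * ((q : ℝ) + 3) := by nlinarith
    have b2 : (2 * Real.pi) * (-((q : ℝ) + 3)) ≤ (2 * Real.pi) * m := by nlinarith
    have c1 := le_of_mul_le_mul_left b1 (by positivity)
    have c2 := le_of_mul_le_mul_left b2 (by positivity)
    have d1 : m ≤ q + 3 := by exact_mod_cast c1
    have d2 : -(q + 3) ≤ m := by exact_mod_cast c2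
    rw [mem_Icc]
    constructor <;> omega
  · unfold NPR
    rw [mem_filter, mem_product]
    have e0 : ((η ^ (-m) : (Qd t c)ˣ) : Qd t c) * u * p.2 =
        ((η ^ (-m) : (Qd t c)ˣ) : Qd t c) * (u * p.2) := mul_assoc _ _ _
    simp only [e0]
    refine ⟨⟨hp1, hp2⟩, ?_, ?_, ?_⟩
    · rw [Un.nm_zpow_mul]; exact hgne
    · rw [chi_re hχ hc, chi_zpow hχ hc hη, one_mul]; exact hchi
    · have tz := (U.tp_zpow_mul (-m)).2 tw
      have h1 := U.dt_sinh t1 tz
      rw [hrd, Un.nm_zpow_mul, ← ha] at h1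
      obtain ⟨τ, hτ⟩ : ∃ τ, τ = rd (ang η p.1 - ang η (u * p.2)) := ⟨_, rfl⟩
      rw [← hτ] at h1 hr
      have hq : 1 ≤ Real.sqrt ((t : ℝ) ^ 2 - 4 * c) := by
        rw [Real.one_le_sqrt]
        have := U.five_le
        linarith
      have h2 := congrArg abs h1
      rw [abs_mul, abs_mul, abs_of_nonneg (by linarith : (0 : ℝ) ≤ Real.sqrt ((t : ℝ) ^ 2 - 4 * c)),
        abs_of_nonneg (by positivity : (0 : ℝ) ≤ 2 * Real.sqrt ((nm p.1 : ℝ) * nm (u * p.2)))] at h2
      have h3 : |Real.sinh (a * -τ)| ≤ a * δ * Real.exp (a / 2) := by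
        refine (sinh_le _).trans ?_
        rw [abs_mul, abs_neg, abs_of_pos ha0]
        have h4 : a * |τ| ≤ a * δ := mul_le_mul_of_nonneg_left hr ha0.le
        have h5 : a * |τ| ≤ a / 2 := by nlinarith
        exact mul_le_mul h4 (Real.exp_le_exp.2 h5) (Real.exp_pos _).le (by positivity)
      have h6 : Real.sqrt ((nm p.1 : ℝ) * nm (u * p.2)) ≤ X * Real.sqrt (nm u) := by
        rw [nm_mul]
        push_cast
        have x1 := k1.1.2.2
        have x2 := k2.1.2.2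
        have e3 : (nm p.1 : ℝ) * ((nm u : ℝ) * nm p.2) ≤ X ^ 2 * nm u := by
          have := mul_le_mul x1 x2 (Nat.cast_nonneg _) (by linarith)
          nlinarith
        calc Real.sqrt ((nm p.1 : ℝ) * ((nm u : ℝ) * nm p.2)) ≤ Real.sqrt (X ^ 2 * nm u) :=
              Real.sqrt_le_sqrt e3
          _ = X * Real.sqrt (nm u) := by
              rw [Real.sqrt_mul (by positivity), Real.sqrt_sq (by linarith)]
      obtain ⟨dd, hdd⟩ : ∃ dd : ℤ,
        dd = dt p.1 (((η ^ (-m) : (Qd t c)ˣ) : Qd t c) * (u * p.2)) := ⟨_, rfl⟩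
      rw [← hdd] at h2 ⊢
      have h7 : |(dd : ℝ)| ≤ Real.sqrt ((t : ℝ) ^ 2 - 4 * c) * |(dd : ℝ)| :=
        le_mul_of_one_le_left (abs_nonneg _) hq
      have h8 : |(dd : ℝ)| ≤ B := by
        refine h7.trans ?_
        rw [h2]
        refine le_trans ?_ hB
        calc 2 * Real.sqrt ((nm p.1 : ℝ) * nm (u * p.2)) * |Real.sinh (a * -τ)|
            ≤ 2 * (X * Real.sqrt (nm u)) * (a * δ * Real.exp (a / 2)) := by
              apply mul_le_mul _ h3 (abs_nonneg _) (by positivity)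
              linarith
          _ = 2 * a * Real.exp (a / 2) * Real.sqrt (nm u) * X * δ := by ring
      exact_mod_cast h8

end Pool.Agent.H287.Q648.AR
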