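import Pool.Agent.H648.Q.Defs2

/-! # Q648, task MULR (helper287, for helper648): few pairs with the same norm and product, real
case -/

set_option autoImplicit false
set_option linter.all false

namespace Pool.Agent.H287.Q648.MR

open Finset Filter
open Pool.Agent.W78.GA (Qd nm prim dt ip nm_mul nm_star nm_natCast star_mul_eq)
open Pool.Agent.W78.GR (Un tp fd ang s1 s2 ball tp_mul tp_star tp_natCast nm_pos nm_posR
  star_mul_self_tp mul_cancel tp_ne_zero ang_mul ang_star ang_natCast s1_mul s2_mul s1_natCast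
  s2_natCast)
open Pool.Agent.H648.Q2

variable {t c : ℤ} {η : (Qd t c)ˣ}

/-- from `star z * w = E β`, `nm z = N`: `N w = z (E β)` -/
lemma mul_back (hd : 4 * c < t ^ 2) {z w β : Qd t c} (hz : tp z) {N : ℕ} {E : ℕ} (hN : nm z = N)
    (h : star z * w = (E : Qd t c) * β) : (N : Qd t c) * w = (E : Qd t c) * (β * z) := by
  rw [← hN, ← star_mul_self_tp hd hz, mul_comm (star z) z, mul_assoc, h]
  ring

/-- the two congruences -/
lemma cong2 {n k : ℤ} {δ : ℤ} (hk : IsCoprime δ k) {z z2 : Qd t c}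
    (h1 : δ ∣ ((⟨n, k⟩ : Qd t c) * z).re) (h2 : δ ∣ ((⟨n, k⟩ : Qd t c) * z).im)
    (h3 : δ ∣ ((⟨n, k⟩ : Qd t c) * z2).re) (h4 : δ ∣ ((⟨n, k⟩ : Qd t c) * z2).im) :
    δ ∣ ip z z2 ∧ δ ∣ dt z z2 := by
  simp only [QuadraticAlgebra.re_mul, QuadraticAlgebra.im_mul] at h1 h2 h3 h4
  constructor
  · apply hk.dvd_of_dvd_mul_left
    have e : k * ip z z2 = (n * z.im + k * z.re + t * k * z.im) * z2.re -
        z.im * (n * z2.re + -c * k * z2.im) := by
      unfold ip; ring
    rw [e]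
    exact dvd_sub (h2.mul_right _) (h3.mul_left _)
  · apply hk.dvd_of_dvd_mul_left
    have e : k * dt z z2 = (n * z.im + k * z.re + t * k * z.im) * z2.im -
        (n * z2.im + k * z2.re + t * k * z2.im) * z.im := by
      unfold dt; ring
    rw [e]
    exact dvd_sub (h2.mul_right _) (h4.mul_right _)

open scoped Classical in
theorem mulr (U : Un t c η) : S_MULR η := by
  intro u B hu
  refine ⟨(ball η ((B : ℝ) ^ 4) ∪ (ball η ((B : ℝ) ^ 4)).image
    (fun z => ((η⁻¹ : (Qd t c)ˣ) : Qd t c) * z)).card, ?_⟩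
  intro E G n k d d' S hE1 hE hG1 hG hd hd' hnk hdd hS
  rcases S.eq_empty_or_nonempty with hS0 | ⟨p0, hp0⟩
  · rw [hS0]; exact Nat.zero_le _
  have hD := U.disc
  have hdk : IsCoprime (d : ℤ) k := by
    have h1 : IsCoprime n k := Int.isCoprime_iff_gcd_eq_one.2 hnk
    have h2 : IsCoprime (n ^ 2) k := h1.pow_left
    have h3 : IsCoprime (n ^ 2 + k * (t * n + c * k)) k := h2.add_mul_left_left _
    have e : n ^ 2 + k * (t * n + c * k) = d * d' := by rw [hdd]; ring
    rw [e] at h3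
    exact h3.of_mul_left_left
  -- the divisor
  obtain ⟨δ, hδ⟩ : Nat.gcd d E ∣ d := Nat.gcd_dvd_left d E
  set q := Nat.gcd d E with hq
  have hq0 : 0 < q := Nat.gcd_pos_of_pos_left _ hd
  have hqB : q ≤ B := (Nat.gcd_le_right d hE1).trans hE
  have hδ0 : 0 < δ := by
    rcases Nat.eq_zero_or_pos δ with h | h
    · rw [h] at hδ; omega
    · exact h
  have hδd : (δ : ℤ) ∣ d := ⟨q, by rw [hδ]; push_cast; ring⟩
  have hδk : IsCoprime (δ : ℤ) k := hdk.of_isCoprime_of_dvd_left hδd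
  have hdiv : ∀ x : ℤ, (d : ℤ) ∣ E * x → (δ : ℤ) ∣ x := by
    intro x hx
    obtain ⟨E', hE'⟩ : q ∣ E := Nat.gcd_dvd_right d E
    have hc : Nat.Coprime δ E' := by
      have := Nat.coprime_div_gcd_div_gcd (m := d) (n := E) (by rw [← hq]; exact hq0)
      rw [← hq] at this
      have e1 : d / q = δ := by rw [hδ]; exact Nat.mul_div_cancel_left _ hq0
      have e2 : E / q = E' := by rw [hE']; exact Nat.mul_div_cancel_left _ hq0
      rwa [e1, e2] at this
    have hc' : IsCoprime (δ : ℤ) E' := Nat.isCoprime_iff_coprime.2 hc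
    rw [hδ, hE'] at hx
    push_cast at hx
    rw [mul_assoc] at hx
    have hq' : (q : ℤ) ≠ 0 := by exact_mod_cast hq0.ne'
    exact hc'.dvd_of_dvd_mul_left (Int.dvd_of_mul_dvd_mul_left hq' hx)
  have hdG : 0 < d * G := Nat.mul_pos hd hG1
  have hdGne : ((d * G : ℕ) : Qd t c) ≠ 0 := tp_ne_zero (tp_natCast hdG)
  -- for each pair
  have hdiv2 : ∀ p ∈ S, (δ : ℤ) ∣ ((⟨n, k⟩ : Qd t c) * p.1).re ∧
      (δ : ℤ) ∣ ((⟨n, k⟩ : Qd t c) * p.1).im ∧
      (((d * G : ℕ)) : Qd t c) * (u * p.2) = (E : Qd t c) * ((⟨n, k⟩ : Qd t c) * p.1) := by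
    intro p hp
    obtain ⟨hf1, hf2, h1, h2, h3⟩ := hS p hp
    have h4 : star p.1 * (u * p.2) = (E : Qd t c) * (⟨n, k⟩ : Qd t c) := by
      rw [star_mul_eq, h2, h3]
      apply QuadraticAlgebra.ext
      · simp only [QuadraticAlgebra.re_mul, QuadraticAlgebra.re_natCast,
          QuadraticAlgebra.im_natCast]
        ring
      · simp only [QuadraticAlgebra.im_mul, QuadraticAlgebra.re_natCast,
          QuadraticAlgebra.im_natCast]
        ring
    have h5 := mul_back hD hf1.1 h1 h4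
    have h6 := congrArg QuadraticAlgebra.re h5
    have h7 := congrArg QuadraticAlgebra.im h5
    rw [QuadraticAlgebra.re_mul, QuadraticAlgebra.re_mul (E : Qd t c)] at h6
    rw [QuadraticAlgebra.im_mul, QuadraticAlgebra.im_mul (E : Qd t c)] at h7
    simp only [QuadraticAlgebra.re_natCast, QuadraticAlgebra.im_natCast, mul_zero, zero_mul,
      add_zero] at h6 h7
    refine ⟨hdiv _ ?_, hdiv _ ?_, h5⟩
    · rw [← h6]; push_cast
      rw [mul_assoc]; exact dvd_mul_right _ _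
    · rw [← h7]; push_cast
      rw [mul_assoc]; exact dvd_mul_right _ _
  have htp0 := (hS p0 hp0).1.1
  have hip : ∀ p ∈ S, (δ : ℤ) ∣ ip p0.1 p.1 ∧ (δ : ℤ) ∣ dt p0.1 p.1 := by
    intro p hp
    exact cong2 hδk (hdiv2 p0 hp0).1 (hdiv2 p0 hp0).2.1 (hdiv2 p hp).1 (hdiv2 p hp).2.1
  set f : Qd t c × Qd t c → Qd t c := fun p => ⟨ip p0.1 p.1 / δ, dt p0.1 p.1 / δ⟩ with hf
  have hfp : ∀ p ∈ S, (δ : Qd t c) * f p = star p0.1 * p.1 := by
    intro p hp
    obtain ⟨h1, h2⟩ := hip p hp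
    rw [star_mul_eq]
    apply QuadraticAlgebra.ext
    · simp only [QuadraticAlgebra.re_mul, QuadraticAlgebra.re_natCast,
        QuadraticAlgebra.im_natCast, hf]
      rw [Int.mul_ediv_cancel' h1]; ring
    · simp only [QuadraticAlgebra.im_mul, QuadraticAlgebra.re_natCast,
        QuadraticAlgebra.im_natCast, hf]
      rw [Int.mul_ediv_cancel' h2]; ring
  have hδR : (0 : ℝ) < δ := by exact_mod_cast hδ0
  apply Finset.card_le_card_of_injOn f
  · intro p hp
    have hp' : p ∈ S := hp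
    have h0 := hfp p hp'
    have h1 := congrArg nm h0
    rw [nm_mul, nm_mul, nm_star, nm_natCast, (hS p hp').2.2.1, (hS p0 hp0).2.2.1, hδ] at h1
    have h2 : δ ^ 2 * nm (f p) = δ ^ 2 * (q * G) ^ 2 := by rw [h1]; ring
    have h3 := Nat.eq_of_mul_eq_mul_left (pow_pos hδ0 2) h2
    have htp := (hS p hp').1.1
    have hsp : tp (star p0.1 * p.1) := tp_mul hD (tp_star htp0) htp
    have hfv : tp (f p) := by
      rw [← h0] at hsp
      obtain ⟨a1, a2⟩ := hsp
      rw [s1_mul hD, s1_natCast] at a1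
      rw [s2_mul hD, s2_natCast] at a2
      exact ⟨(mul_pos_iff_of_pos_left hδR).1 a1, (mul_pos_iff_of_pos_left hδR).1 a2⟩
    have hang : ang η (f p) = ang η p.1 - ang η p0.1 := by
      have a1 := congrArg (ang η) h0
      rw [ang_mul hD (tp_natCast hδ0) hfv, ang_natCast hδ0, ang_mul hD (tp_star htp0) htp,
        ang_star] at a1
      linarith
    have hnm : (nm (f p) : ℝ) ≤ (B : ℝ) ^ 4 := by
      rw [h3]
      have h4 : (q * G) ^ 2 ≤ B ^ 4 := by
        calc (q * G) ^ 2 ≤ (B * B) ^ 2 := Nat.pow_le_pow_left (Nat.mul_le_mul hqB hG) 2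
          _ = B ^ 4 := by ring
      exact_mod_cast h4
    have b1 := (hS p hp').1.2
    have b2 := (hS p0 hp0).1.2
    rw [Finset.mem_coe, mem_union]
    by_cases hc : 0 ≤ ang η (f p)
    · left
      rw [U.mem_ball]
      exact ⟨⟨hfv, hc, by rw [hang]; linarith⟩, hnm⟩
    · right
      rw [mem_image]
      refine ⟨(η : Qd t c) * f p, ?_, ?_⟩
      · rw [U.mem_ball]
        refine ⟨⟨tp_mul hD U.pos hfv, ?_, ?_⟩, ?_⟩
        · rw [U.ang_eta_mul hfv, hang]; linarith
        · rw [U.ang_eta_mul hfv]; linarith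
        · rw [nm_mul, Un.nm_eta, one_mul]; exact hnm
      · rw [← mul_assoc, ← Units.val_mul, inv_mul_cancel, Units.val_one, one_mul]
  · intro p hp p' hp' hpp
    have h1 := hfp p hp
    have h2 := hfp p' hp'
    have h3 : star p0.1 * p.1 = star p0.1 * p'.1 := by
      rw [← h1, ← h2, hpp]
    have h4 := mul_cancel U.nsq (tp_ne_zero (tp_star htp0)) h3
    have h5 := (hdiv2 p hp).2.2
    have h6 := (hdiv2 p' hp').2.2
    rw [← h4, ← h5] at h6
    have h7 := mul_cancel U.nsq hdGne h6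
    have h8 := mul_cancel U.nsq (tp_ne_zero hu) h7
    exact Prod.ext h4 h8.symm

end Pool.Agent.H287.Q648.MR
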